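import Pool.Agent.helper93.TV.Spec2

/-!
# Row tv:DR (MP_29f1cd_al)
-/

set_option autoImplicit false

namespace Pool.Agent.helper93.TV

open BigOperators Finset Matrix

theorem DR : DR_stmt := by
  intro hU2 hDP I V _ _ _ _ D F hF n l p hp p₀ hp₀ β₁ β₂
  rw [hDP I V F hF.uf.pent n l (D.rho (D.t l)) β₁ β₂ p hp p₀ hp₀]
  have key : ∀ n' l'', F l (D.rho (D.t l)) n' l'' =
      if n' = D.rho (D.s2 l) then (if l'' = l then 1 else 0) else 0 := by
    intro n' l''
    split_ifs with h1 h2
    · rw [h1, hU2 I V D F hF l l'', if_pos h2.symm]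
    · rw [h1, hU2 I V D F hF l l'', if_neg fun h => h2 h.symm]
    · by_contra h
      obtain ⟨⟨_, _, _, c4, c5, _⟩, _, _⟩ := hF.uf.conn.supp _ _ _ _ h
      rw [D.s2_rho] at c5
      have h3 := D.rho_unique n' c5.symm
      rw [← c4] at h3
      exact h1 h3
  rw [Finset.sum_eq_single (D.rho (D.s2 l))]
  · rw [Finset.sum_eq_single l]
    · refine Finset.sum_congr rfl fun p' _ => ?_
      rw [key, if_pos rfl, if_pos rfl, one_mul]
    · intro l'' _ h
      refine Finset.sum_eq_zero fun p' _ => ?_
      rw [key, if_pos rfl, if_neg h, zero_mul, zero_mul]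
    · intro h
      exact absurd (Finset.mem_univ _) h
  · intro n' _ h
    refine Finset.sum_eq_zero fun l'' _ => Finset.sum_eq_zero fun p' _ => ?_
    rw [key, if_neg h, zero_mul, zero_mul]
  · intro h
    exact absurd (Finset.mem_univ _) h

end Pool.Agent.helper93.TV
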